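import Pool.Agent.Helper84_TMP.Stmt

set_option autoImplicit false

/-!
# WIN: the Satake transform is invariant under the simple reflections
-/

open scoped BigOperators

namespace Pool.Agent.TMP.H75

open Pool.Agent.DEN Pool.Agent.TMP

section
variable {r : ℕ} {C : Matrix (Fin r) (Fin r) ℤ} {K : Type} [Field K]

/-- The orbit of `z` under `U_i`. -/
def Ob (i : Fin r) (z : XX C K) : Set (XX C K) := {y | ∃ u ∈ Un C K i, y = u • z}

theorem mem_Ob_self (i : Fin r) (z : XX C K) : z ∈ Ob i z := ⟨1, one_mem _, (one_smul _ z).symm⟩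

theorem Ob_eq {i : Fin r} {y z : XX C K} (h : y ∈ Ob i z) : Ob i y = Ob i z := by
  obtain ⟨u, hu, rfl⟩ := h
  ext x
  constructor
  · rintro ⟨v, hv, rfl⟩
    exact ⟨v * u, mul_mem hv hu, by rw [mul_smul]⟩
  · rintro ⟨v, hv, rfl⟩
    refine ⟨v * u⁻¹, mul_mem hv (inv_mem hu), ?_⟩
    rw [mul_smul, inv_smul_smul]

theorem Ob_smul {i : Fin r} (j : grp C K) (h1 : ∀ u ∈ Un C K i, j * u * j⁻¹ ∈ Un C K i)
    (h2 : ∀ u ∈ Un C K i, j⁻¹ * u * j ∈ Un C K i) (z : XX C K) :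
    Ob i (j • z) = (fun y => j • y) '' Ob i z := by
  ext x
  constructor
  · rintro ⟨u, hu, rfl⟩
    refine ⟨(j⁻¹ * u * j) • z, ⟨_, h2 u hu, rfl⟩, ?_⟩
    show j • (j⁻¹ * u * j) • z = u • j • z
    have e : j * (j⁻¹ * u * j) = u * j := by group
    rw [smul_smul, smul_smul, e]
  · rintro ⟨_, ⟨u, hu, rfl⟩, rfl⟩
    refine ⟨j * u * j⁻¹, h1 u hu, ?_⟩
    show j • u • z = (j * u * j⁻¹) • j • z
    have e : j * u = j * u * j⁻¹ * j := by group
    rw [smul_smul, smul_smul, ← e]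

theorem psi_smul {i : Fin r} (j : grp C K) (h1 : ∀ u ∈ Un C K i, j * u * j⁻¹ ∈ Un C K i)
    (h2 : ∀ u ∈ Un C K i, j⁻¹ * u * j ∈ Un C K i) (f : XX C K → ℂ)
    (hf : ∀ y, f (j • y) = f y) (z : XX C K) :
    ∑ᶠ y ∈ Ob i (j • z), f y = ∑ᶠ y ∈ Ob i z, f y := by
  rw [Ob_smul j h1 h2, finsum_mem_image (MulAction.injective j).injOn]
  exact finsum_mem_congr rfl fun y _ => hf y

/-- Sum over a finite family of classes which contains the support. -/
theorem sum_classes {X : Type} (f : X → ℂ) (hf : {y | f y ≠ 0}.Finite) (A : Set X)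
    (T : Set (Set X)) (hT : T.Finite)
    (hd : ∀ O ∈ T, ∀ O' ∈ T, ∀ y, y ∈ O → y ∈ O' → O = O') (hA : ∀ O ∈ T, O ⊆ A)
    (hcov : ∀ y ∈ A, f y ≠ 0 → ∃ O ∈ T, y ∈ O) :
    ∑ᶠ y ∈ A, f y = ∑ᶠ O ∈ T, ∑ᶠ y ∈ O, f y := by
  have h1 : ∑ᶠ O ∈ T, ∑ᶠ y ∈ O, f y = ∑ᶠ O ∈ T, ∑ᶠ y ∈ O ∩ Function.support f, f y :=
    finsum_mem_congr rfl fun O _ => (finsum_mem_inter_support f O).symm
  rw [h1, ← finsum_mem_biUnion, ← finsum_mem_inter_support f A]
  · have h2 : A ∩ Function.support f = ⋃ O ∈ T, O ∩ Function.support f := by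
      ext y
      simp only [Set.mem_inter_iff, Set.mem_iUnion, Function.mem_support]
      constructor
      · rintro ⟨hy, hfy⟩
        obtain ⟨O, hO, hyO⟩ := hcov y hy hfy
        exact ⟨O, hO, hyO, hfy⟩
      · rintro ⟨O, hO, hyO, hfy⟩
        exact ⟨hA O hO hyO, hfy⟩
    rw [h2]
  · intro O hO O' hO' hne
    rw [Function.onFun, Set.disjoint_left]
    rintro y ⟨hy, _⟩ ⟨hy', _⟩
    exact hne (hd O hO O' hO' y hy hy')
  · exact hT
  · intro O _
    exact hf.subset fun y hy => hy.2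

/-- Every element has a bounded degree. -/
theorem exists_Bd (b : FF K) : ∃ m, b ∈ Bd K m := by
  have hF := H22.hF1 K
  by_cases hb : b = 0
  · exact ⟨0, by rw [hb]; exact hF.1 0⟩
  · obtain ⟨m, u, h1, h2, _⟩ := hF.2.2.2.2.2.2.2.2 b hb
    exact ⟨m, by rw [h1]; exact (hF.2.2.2.2.2.2.2.1 m u).mpr h2⟩

theorem inv_Bd {b : FF K} {m : ℤ} (h1 : b ∈ Bd K m) (h2 : b ∉ Bd K (m - 1)) :
    b⁻¹ ∈ Bd K (-m) := by
  have hF := H22.hF1 K
  have hb : b ≠ 0 := by
    rintro rfl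
    exact h2 (hF.1 _)
  obtain ⟨m', u, e1, e2, e3, _, e5⟩ := hF.2.2.2.2.2.2.2.2 b hb
  have hm' : b ∈ Bd K m' := by rw [e1]; exact (hF.2.2.2.2.2.2.2.1 m' u).mpr e2
  have hm : m' = m := by
    rcases lt_trichotomy m' m with h | h | h
    · exact absurd (hF.2.2.2.2.1 _ _ _ (by omega) hm') h2
    · exact h
    · exact absurd (hF.2.2.2.2.1 _ _ _ (by omega) h1) e5
  subst hm
  rw [e1, mul_inv, ← zpow_neg]
  exact (hF.2.2.2.2.2.2.2.1 (-m') u⁻¹).mpr e3

variable (hC : SimplyLaced C)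

/-- The class of `x_i(b) t^l o`. -/
noncomputable def Pc (i : Fin r) (l : Fin r → ℤ) (b : FF K) : Set (XX C K) :=
  Ob i (xi hC i b • tp hC K l)

theorem xi_add (i : Fin r) (a b : FF K) : xi hC i (a + b) = xi hC i a * xi hC i b :=
  xg_add hC (hC.sr i) a b

theorem xi_tp (i : Fin r) (l : Fin r → ℤ) {a : FF K} (ha : a ∈ Bd K (ip C (al i) l)) :
    xi hC i a • tp hC K l = tp hC K l :=
  xg_tp hC l (hC.sr i) ha

theorem Pc_iff (hhor : HorStmt) (i : Fin r) (l : Fin r → ℤ) (b b' : FF K) :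
    Pc hC i l b = Pc hC i l b' ↔ b - b' ∈ Bd K (ip C (al i) l) := by
  have hF := H22.hF1 K
  constructor
  · intro h
    have h1 : xi hC i b • tp hC K l ∈ Pc hC i l b' := by
      rw [← h]
      exact mem_Ob_self i _
    obtain ⟨u, hu, h2⟩ := h1
    have h3 := (hhor r C hC K).2.1 i b' b l u hu h2.symm
    have h4 := hF.2.2.1 _ _ h3
    rwa [neg_sub] at h4
  · intro h
    have h1 : xi hC i b • tp hC K l = xi hC i b' • tp hC K l := by
      have h2 : xi hC i b = xi hC i b' * xi hC i (b - b') := by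
        rw [← xi_add hC, add_sub_cancel]
      rw [h2, mul_smul, xi_tp hC i l h]
    unfold Pc
    rw [h1]

theorem Pc_sub (i : Fin r) (l : Fin r → ℤ) (b : FF K) : Pc hC i l b ⊆ Hor hC K l := by
  rintro _ ⟨u, hu, rfl⟩
  refine ⟨u * xi hC i b, mul_mem (Un_le i hu) (xg_Ug hC ?_ b), by rw [mul_smul]⟩
  rw [pos_iff hC]
  unfold ht
  rw [SimplyLaced.sr_val]
  unfold al
  simp

variable [Finite K]

/-- The sum over the class of `t^l o`. -/
noncomputable def phi (k : XX C K → XX C K → ℂ) (i : Fin r) (l : Fin r → ℤ) : ℂ :=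
  ∑ᶠ y ∈ Ob i (tp hC K l), k (oo C K) y

theorem psi_xi (hker : KerStmt) {k : XX C K → XX C K → ℂ} (hk : IsKer k) (i : Fin r) {a : FF K}
    (ha : a ∈ Bd K 0) (z : XX C K) :
    ∑ᶠ y ∈ Ob i (xi hC i a • z), k (oo C K) y = ∑ᶠ y ∈ Ob i z, k (oo C K) y := by
  apply psi_smul
  · intro u hu
    exact xi_Un hC i hu a
  · intro u hu
    have h1 := xi_Un hC i hu (-a)
    have h2 : xi hC i (-a) = (xi hC i a)⁻¹ := (xg_inv hC (hC.sr i) a).symm
    rw [h2, inv_inv] at h1
    exact h1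
  · intro y
    exact (hker r C hC K).2.2.2.2.2.2.2 k hk _ (xg_maxK hC _ ha) y

theorem psi_wi (hker : KerStmt) (hvis : VisStmt) {k : XX C K → XX C K → ℂ} (hk : IsKer k)
    (i : Fin r) (z : XX C K) :
    ∑ᶠ y ∈ Ob i (wi hC K i • z), k (oo C K) y = ∑ᶠ y ∈ Ob i z, k (oo C K) y := by
  apply psi_smul
  · intro u hu
    exact wi_Un hC i hu
  · intro u hu
    exact (hvis r C hC K).2.2.2.2.2 i u hu
  · intro y
    exact (hker r C hC K).2.2.2.2.2.2.2 k hk _ (wi_maxK hC i) y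

theorem psi_small (hker : KerStmt) {k : XX C K → XX C K → ℂ} (hk : IsKer k) (i : Fin r)
    (l : Fin r → ℤ) {b : FF K} (hb : b ∈ Bd K (max 0 (ip C (al i) l))) :
    ∑ᶠ y ∈ Pc hC i l b, k (oo C K) y = phi hC k i l := by
  unfold Pc phi
  rcases le_or_gt (ip C (al i) l) 0 with h | h
  · rw [max_eq_left h] at hb
    exact psi_xi hC hker hk i hb _
  · rw [max_eq_right h.le] at hb
    rw [xi_tp hC i l hb]

theorem psi_large (hker : KerStmt) (hvis : VisStmt) {k : XX C K → XX C K → ℂ} (hk : IsKer k)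
    (i : Fin r) (l : Fin r → ℤ) {b : FF K} {m : ℤ} (hm : max 0 (ip C (al i) l) < m)
    (hb : b ∈ Bd K m) (hb' : b ∉ Bd K (m - 1)) :
    ∑ᶠ y ∈ Pc hC i l b, k (oo C K) y = phi hC k i (l - m • al i) := by
  have hF := H22.hF1 K
  unfold Pc phi
  have h1 : ip C (al i) l < m := lt_of_le_of_lt (le_max_right _ _) hm
  have h0 : 0 < m := lt_of_le_of_lt (le_max_left _ _) hm
  have h2 := psi_wi hC hker hvis hk i (xi hC i b • tp hC K l)
  rw [rk1 hC i l h1 hb hb'] at h2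
  have h3 : -b⁻¹ ∈ Bd K 0 :=
    hF.2.2.1 _ _ (hF.2.2.2.2.1 _ _ _ (by omega) (inv_Bd hb hb'))
  rw [psi_xi hC hker hk i h3] at h2
  exact h2.symm

theorem phi_sf (hker : KerStmt) (hvis : VisStmt) {k : XX C K → XX C K → ℂ} (hk : IsKer k)
    (i : Fin r) (l : Fin r → ℤ) : phi hC k i (sf C i l) = phi hC k i l := by
  unfold phi
  rw [← wi_tp hC i l]
  exact psi_wi hC hker hvis hk i _

/-- The sum over the horocycle in terms of the sums over the classes. -/
theorem hsum_formula (hker : KerStmt) (hhor : HorStmt) (hcls : ClsStmt) (hvis : VisStmt)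
    {k : XX C K → XX C K → ℂ} (hk : IsKer k) (i : Fin r) (l : Fin r → ℤ) (n : ℤ)
    (hn : ip C (al i) l = n) : ∃ M0 : ℤ, ∀ M, M0 ≤ M → max 0 n ≤ M →
    hsum hC k l = (Nat.card K : ℂ) ^ (max 0 n - n) * phi hC k i l +
      ∑ m ∈ Finset.Ioc (max 0 n) M, ((Nat.card K : ℂ) - 1) * (Nat.card K : ℂ) ^ (m - 1 - n) *
        phi hC k i (l - m • al i) := by
  subst hn
  have hF := H22.hF1 K
  have hfin : {y | k (oo C K) y ≠ 0}.Finite := hk.fin _
  have hex : ∀ y : {y | k (oo C K) y ≠ 0}, ∃ m : ℤ, y.1 ∈ Hor hC K l →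
      ∃ b ∈ Bd K m, y.1 ∈ Pc hC i l b := by
    rintro ⟨y, hy⟩
    by_cases hyH : y ∈ Hor hC K l
    · obtain ⟨u, hu, rfl⟩ := hyH
      obtain ⟨b, u', hu', rfl⟩ := ups hC i hu
      obtain ⟨m, hm⟩ := exists_Bd b
      refine ⟨m, fun _ => ⟨b, hm, u', hu', ?_⟩⟩
      show (u' * xi hC i b) • tp hC K l = u' • xi hC i b • tp hC K l
      rw [mul_smul]
    · exact ⟨0, fun h => absurd h hyH⟩
  choose mm hmm using hex
  have : Finite {y | k (oo C K) y ≠ 0} := hfin
  obtain ⟨M0, hM0⟩ := (Set.finite_range mm).bddAbove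
  refine ⟨M0, fun M hM hpM => ?_⟩
  have hc := hcls K (Set (XX C K)) (ip C (al i) l) (max 0 (ip C (al i) l)) M (le_max_right _ _)
    hpM (Pc hC i l) (Pc_iff hC hhor i l) (fun O => ∑ᶠ y ∈ O, k (oo C K) y)
    (fun m => if m ≤ max 0 (ip C (al i) l) then phi hC k i l else phi hC k i (l - m • al i))
    (fun b hb => by
      show _ = if _ then _ else _
      rw [if_pos le_rfl]
      exact psi_small hC hker hk i l hb)
    (fun m hm _ b hb hb' => by
      show _ = if _ then _ else _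
      rw [if_neg (not_le.mpr hm)]
      exact psi_large hC hker hvis hk i l hm hb hb')
  have h1 : hsum hC k l = ∑ᶠ O ∈ Pc hC i l '' Bd K M, ∑ᶠ y ∈ O, k (oo C K) y := by
    unfold hsum
    apply sum_classes (fun y => k (oo C K) y) hfin _ _ hc.1
    · rintro _ ⟨b, _, rfl⟩ _ ⟨b', _, rfl⟩ y hy hy'
      have e1 : Ob i y = Pc hC i l b := Ob_eq hy
      have e2 : Ob i y = Pc hC i l b' := Ob_eq hy'
      rw [← e1, e2]
    · rintro _ ⟨b, _, rfl⟩
      exact Pc_sub hC i l b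
    · intro y hy hy0
      obtain ⟨b, hb, hyb⟩ := hmm ⟨y, hy0⟩ hy
      refine ⟨_, ⟨b, ?_, rfl⟩, hyb⟩
      have h2 : mm ⟨y, hy0⟩ ≤ M0 := hM0 ⟨_, rfl⟩
      exact hF.2.2.2.2.1 _ _ _ (h2.trans hM) hb
  rw [h1, hc.2, if_pos le_rfl]
  congr 1
  apply Finset.sum_congr rfl
  intro m hm
  rw [if_neg (not_le.mpr (Finset.mem_Ioc.mp hm).1)]

include hC in
theorem ip_al_self (i : Fin r) : ip C (al i) (al i) = 2 := by
  have h := (hC.sr i).2
  rwa [SimplyLaced.sr_val] at h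

include hC in
theorem ip_sf (i : Fin r) (l : Fin r → ℤ) : ip C (al i) (sf C i l) = - ip C (al i) l := by
  unfold sf
  rw [ip_sub_right, ip_smul_right, ip_al_self hC]
  ring

include hC in
theorem sf_sf (i : Fin r) (l : Fin r → ℤ) : sf C i (sf C i l) = l := by
  have h := ip_sf hC i l
  have e : sf C i (sf C i l) = sf C i l - ip C (al i) (sf C i l) • al i := rfl
  rw [e, h]
  unfold sf
  module

theorem hv_sf (i : Fin r) (l : Fin r → ℤ) : hv (sf C i l) = hv l - ip C (al i) l := by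
  unfold hv sf
  have h : ∀ j : Fin r, (l - ip C (al i) l • al i) j = l j - ip C (al i) l * al i j := fun j => by
    simp [Pi.sub_apply]
  rw [Finset.sum_congr rfl (fun j _ => h j), Finset.sum_sub_distrib, ← Finset.mul_sum]
  have h2 : ∑ j, (al i : Fin r → ℤ) j = 1 := by
    unfold al
    simp
  rw [h2, mul_one]

theorem win_neg (hker : KerStmt) (hhor : HorStmt) (hcls : ClsStmt) (hvis : VisStmt)
    {k : XX C K → XX C K → ℂ} (hk : IsKer k) (i : Fin r) (l : Fin r → ℤ)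
    (hn : ip C (al i) l ≤ 0) : sat hC k (sf C i l) = sat hC k l := by
  obtain ⟨n, hn'⟩ : ∃ n, ip C (al i) l = n := ⟨_, rfl⟩
  rw [hn'] at hn
  obtain ⟨M1, h1⟩ := hsum_formula hC hker hhor hcls hvis hk i l n hn'
  obtain ⟨M2, h2⟩ := hsum_formula hC hker hhor hcls hvis hk i (sf C i l) (-n)
    (by rw [ip_sf hC, hn'])
  have e1 := h1 (max M1 (max M2 0)) (le_max_left _ _)
    (by rw [max_eq_left hn]; exact le_trans (le_max_right _ _) (le_max_right _ _))
  have e2 := h2 (max M1 (max M2 0) - n)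
    (by
      have : M2 ≤ max M1 (max M2 0) := le_trans (le_max_left _ _) (le_max_right _ _)
      omega)
    (by
      rw [max_eq_right (by omega)]
      have : 0 ≤ max M1 (max M2 0) := le_trans (le_max_right _ _) (le_max_right _ _)
      omega)
  rw [max_eq_left hn] at e1
  rw [max_eq_right (by omega : (0 : ℤ) ≤ -n)] at e2
  have hq : (Nat.card K : ℂ) ≠ 0 := by
    have : Nat.card K ≠ 0 := Nat.card_pos.ne'
    exact_mod_cast this
  have e3 : ∑ m ∈ Finset.Ioc (-n) (max M1 (max M2 0) - n),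
      ((Nat.card K : ℂ) - 1) * (Nat.card K : ℂ) ^ (m - 1 - -n) *
        phi hC k i (sf C i l - m • al i) =
      ∑ m ∈ Finset.Ioc 0 (max M1 (max M2 0)),
      ((Nat.card K : ℂ) - 1) * (Nat.card K : ℂ) ^ (m - 1) * phi hC k i (l - m • al i) := by
    apply Finset.sum_nbij' (fun m => m + n) (fun m => m - n)
    · intro m hm
      rw [Finset.mem_Ioc] at hm ⊢
      omega
    · intro m hm
      rw [Finset.mem_Ioc] at hm ⊢
      omega
    · intro m _
      ring
    · intro m _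
      ring
    · intro m _
      have f1 : m - 1 - -n = m + n - 1 := by ring
      have f2 : sf C i l - m • al i = l - (m + n) • al i := by
        unfold sf
        rw [hn']
        module
      rw [f1, f2]
  rw [e3, phi_sf hC hker hvis hk, sub_self, zpow_zero, one_mul] at e2
  unfold sat
  rw [hv_sf, hn', e1, e2, zpow_sub₀ hq, zero_sub, mul_add, mul_add, zpow_neg]
  congr 1
  · field_simp
  · rw [Finset.mul_sum, Finset.mul_sum]
    apply Finset.sum_congr rfl
    intro m _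
    rw [zpow_sub₀ hq (m - 1) n]
    field_simp

/-- WIN: `S k` is invariant under the simple reflections. -/
theorem win (hker : KerStmt) (hhor : HorStmt) (hcls : ClsStmt) (hvis : VisStmt) : WinStmt := by
  intro r C hC K _ _ k hk i l
  rcases le_or_gt (ip C (al i) l) 0 with h | h
  · exact win_neg hC hker hhor hcls hvis hk i l h
  · have h1 : ip C (al i) (sf C i l) ≤ 0 := by
      rw [ip_sf hC]
      omega
    have h2 := win_neg hC hker hhor hcls hvis hk i (sf C i l) h1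
    rw [sf_sf hC] at h2
    exact h2.symm

end

end Pool.Agent.TMP.H75
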